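import Pool.Agent.W2helper1.DG.Stm

/-!
# Project DG (MP_2da123_co), pieces CB2 and ISO
-/

set_option autoImplicit false

namespace Pool.Agent.W2helper11.DG

open Set
open Pool.Agent.Results.MP_2da123_co.DimSix (IsGraphOf IsPolytopal joinComplete dJoin)
open Pool.Agent.W2helper1.DG

/-! ### ISO -/

theorem polytopal_of_iso {d : ℕ} {U U' : Type} {H : SimpleGraph U} {H' : SimpleGraph U'}
    (e : U ≃ U') (he : ∀ u v, H.Adj u v ↔ H'.Adj (e u) (e v)) (h : IsPolytopal d H') :
    IsPolytopal d H := by
  obtain ⟨P, p, h1, h2, h3, h4, h5⟩ := h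
  refine ⟨P, p ∘ e, h1, h2, h3.comp e.injective, ?_, ?_⟩
  · rw [e.surjective.range_comp]
    exact h4
  · intro u v
    rw [he, h5]
    simp only [Function.comp, ne_eq, e.injective.eq_iff]

/-- the bijection of the vertices -/
def isoEquiv (V : Type) (k : ℕ) : (V ⊕ Fin k) ⊕ Fin 1 ≃ V ⊕ Fin (k + 1) :=
  (Equiv.sumAssoc V (Fin k) (Fin 1)).trans (Equiv.sumCongr (Equiv.refl V) finSumFinEquiv)

theorem isoEquiv_inl {V : Type} {k : ℕ} (x : (V ⊕ Fin k) ⊕ Fin 1) (v : V) :
    isoEquiv V k x = Sum.inl v ↔ x = Sum.inl (Sum.inl v) := by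
  rcases x with (a | a) | a
  · simp [isoEquiv]
  · simp [isoEquiv]
  · simp [isoEquiv]

theorem iso_adj {V : Type} (G : SimpleGraph V) (k : ℕ) (x y : (V ⊕ Fin k) ⊕ Fin 1) :
    (joinComplete (joinComplete G k) 1).Adj x y ↔
      (joinComplete G (k + 1)).Adj (isoEquiv V k x) (isoEquiv V k y) := by
  show (x ≠ y ∧ ∀ u v, x = Sum.inl u → y = Sum.inl v →
      (u ≠ v ∧ ∀ a b, u = Sum.inl a → v = Sum.inl b → G.Adj a b)) ↔
    (isoEquiv V k x ≠ isoEquiv V k y ∧ ∀ u v, isoEquiv V k x = Sum.inl u →
      isoEquiv V k y = Sum.inl v → G.Adj u v)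
  rw [(isoEquiv V k).injective.ne_iff]
  constructor
  · rintro ⟨h1, h2⟩
    refine ⟨h1, fun u v hu hv => ?_⟩
    rw [isoEquiv_inl] at hu hv
    exact (h2 _ _ hu hv).2 u v rfl rfl
  · rintro ⟨h1, h2⟩
    refine ⟨h1, fun u v hu hv => ⟨?_, ?_⟩⟩
    · rintro rfl
      exact h1 (hu.trans hv.symm)
    · intro a b ha hb
      exact h2 a b ((isoEquiv_inl x a).2 (by rw [hu, ha])) ((isoEquiv_inl y b).2 (by rw [hv, hb]))

theorem iso : S_ISO := by
  intro V _ G k d
  constructor
  · intro h
    refine polytopal_of_iso (isoEquiv V k).symm ?_ h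
    intro u v
    rw [iso_adj]
    simp
  · intro h
    exact polytopal_of_iso (isoEquiv V k) (iso_adj G k) h

/-! ### CB2 -/

theorem outer_complete {W : Type} [Fintype W] (H : SimpleGraph W) (hc : Fintype.card W = 3)
    (h : ∀ x y, x ≠ y → H.Adj x y) : Outer H := by
  refine ⟨0, (Fintype.equivFinOfCardEq hc).symm, ?_, ?_⟩
  · intro i
    refine h _ _ (fun he => ?_)
    exact (by decide : ∀ i : Fin (0 + 3), i ≠ i + 1) i
      ((Fintype.equivFinOfCardEq hc).symm.injective he)
  · intro i j k l hij hjk hkl
    exfalso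
    have h1 : i.val < j.val := hij
    have h2 : j.val < k.val := hjk
    have h3 : k.val < l.val := hkl
    have h4 := l.isLt
    omega

theorem join_adj {V : Type} (G : SimpleGraph V) (n : ℕ) (x y : V ⊕ Fin n) :
    (joinComplete G n).Adj x y ↔ (x ≠ y ∧ ∀ u v, x = Sum.inl u → y = Sum.inl v → G.Adj u v) :=
  Iff.rfl

theorem cb2_small {V : Type} [Fintype V] (G : SimpleGraph V) (h : Fintype.card V ≤ 2) :
    ∃ k, 1 ≤ k ∧ Outer (joinComplete G k) := by
  by_cases h2 : Fintype.card V = 2
  · set e := Fintype.equivFinOfCardEq h2 with he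
    by_cases hadj : G.Adj (e.symm 0) (e.symm 1)
    · refine ⟨1, le_refl _, outer_complete _ (by simp [h2]) ?_⟩
      intro x y hxy
      refine ⟨hxy, ?_⟩
      rintro u v rfl rfl
      have huv : u ≠ v := fun h => hxy (by rw [h])
      obtain ⟨i, rfl⟩ := e.symm.surjective u
      obtain ⟨j, rfl⟩ := e.symm.surjective v
      have hij : i ≠ j := fun h => huv (by rw [h])
      fin_cases i <;> fin_cases j
      · exact absurd rfl hij
      · exact hadj
      · exact hadj.symm
      · exact absurd rfl hij
    · refine ⟨2, by norm_num, ?_⟩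
      set f : Fin 4 → V ⊕ Fin 2 :=
        ![Sum.inr 0, Sum.inl (e.symm 0), Sum.inr 1, Sum.inl (e.symm 1)] with hf
      have h01 : e.symm 0 ≠ e.symm 1 := by
        intro h
        exact absurd (e.symm.injective h) (by decide)
      have hinj : Function.Injective f := by
        intro i j hij
        fin_cases i <;> fin_cases j <;> simp [hf, h01, h01.symm] at hij ⊢
      have hbij : Function.Bijective f := by
        rw [Fintype.bijective_iff_injective_and_card]
        exact ⟨hinj, by simp [h2]⟩
      refine ⟨1, Equiv.ofBijective f hbij, ?_, ?_⟩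
      · intro i
        rw [join_adj]
        simp only [Equiv.ofBijective_apply]
        refine ⟨fun h => (by decide : ∀ i : Fin (1 + 3), i ≠ i + 1) i (hinj h), ?_⟩
        · intro u v hu hv
          exfalso
          fin_cases i <;> simp [hf] at hu hv
      · intro i j k l hij hjk hkl
        have hi : i = 0 := by ext; have := l.isLt; simp at *; omega
        have hj : j = 1 := by ext; have := l.isLt; simp at *; omega
        have hk : k = 2 := by ext; have := l.isLt; simp at *; omega
        have hl : l = 3 := by ext; have := l.isLt; simp at *; omega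
        subst hi hj hk hl
        rintro ⟨_, h⟩
        rw [join_adj] at h
        exact hadj (h.2 _ _ rfl rfl)
  · by_cases h1 : Fintype.card V = 1
    · refine ⟨2, by norm_num, outer_complete _ (by simp [h1]) ?_⟩
      intro x y hxy
      refine ⟨hxy, ?_⟩
      rintro u v rfl rfl
      exact absurd (by rw [Fintype.card_le_one_iff.1 (le_of_eq h1) u v]) hxy
    · have h0 : Fintype.card V = 0 := by omega
      refine ⟨3, by norm_num, outer_complete _ (by simp [h0]) ?_⟩
      intro x y hxy
      refine ⟨hxy, ?_⟩
      rintro u v rfl rfl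
      exact ((Fintype.card_eq_zero_iff.1 h0).false u).elim

theorem cb2_path {V : Type} [Fintype V] (G : SimpleGraph V) (M : ℕ) (c : Fin (M + 2) ≃ V)
    (hc : ∀ i j : Fin (M + 2), G.Adj (c i) (c j) ↔ (i.val + 1 = j.val ∨ j.val + 1 = i.val)) :
    Outer (joinComplete G 1) := by
  set f : Fin (M + 3) → V ⊕ Fin 1 := fun a =>
    if h : a.val = 0 then Sum.inr 0 else Sum.inl (c ⟨a.val - 1, by omega⟩) with hf
  have f0 : ∀ a : Fin (M + 3), a.val = 0 → f a = Sum.inr 0 := by
    intro a ha
    simp only [hf]
    rw [dif_pos ha]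
  have f1 : ∀ a : Fin (M + 3), (ha : a.val ≠ 0) → f a = Sum.inl (c ⟨a.val - 1, by omega⟩) := by
    intro a ha
    simp only [hf]
    rw [dif_neg ha]
  have hinj : Function.Injective f := by
    intro a b hab
    by_cases ha : a.val = 0
    · by_cases hb : b.val = 0
      · ext; omega
      · rw [f0 a ha, f1 b hb] at hab
        exact absurd hab (by simp)
    · by_cases hb : b.val = 0
      · rw [f1 a ha, f0 b hb] at hab
        exact absurd hab (by simp)
      · rw [f1 a ha, f1 b hb] at hab
        have := c.injective (Sum.inl_injective hab)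
        have h' := congrArg Fin.val this
        simp only at h'
        ext; omega
  have hcard : Fintype.card V = M + 2 := by
    rw [← Fintype.card_congr c, Fintype.card_fin]
  have hbij : Function.Bijective f := by
    rw [Fintype.bijective_iff_injective_and_card]
    exact ⟨hinj, by simp [hcard]⟩
  refine ⟨M, Equiv.ofBijective f hbij, ?_, ?_⟩
  · intro i
    simp only [Equiv.ofBijective_apply]
    have hval : (i + 1).val = (i.val + 1) % (M + 3) := by
      rw [Fin.val_add]
      simp
    rw [join_adj]
    refine ⟨fun h => ?_, ?_⟩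
    · have h' := congrArg Fin.val (hinj h)
      rw [hval] at h'
      have := i.isLt
      by_cases hl : i.val + 1 = M + 3
      · rw [hl, Nat.mod_self] at h'
        omega
      · rw [Nat.mod_eq_of_lt (by omega)] at h'
        omega
    · intro u v hu hv
      by_cases hi : i.val = 0
      · rw [f0 i hi] at hu
        exact absurd hu (by simp)
      by_cases hi1 : (i + 1).val = 0
      · rw [f0 _ hi1] at hv
        exact absurd hv (by simp)
      have hlt : i.val + 1 < M + 3 := by
        by_contra hge
        have := i.isLt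
        have : i.val + 1 = M + 3 := by omega
        rw [this, Nat.mod_self] at hval
        exact hi1 hval
      rw [Nat.mod_eq_of_lt hlt] at hval
      rw [f1 i hi] at hu
      rw [f1 _ hi1] at hv
      rw [← Sum.inl_injective hu, ← Sum.inl_injective hv, hc]
      left
      simp only
      omega
  · intro i j k l hij hjk hkl
    have e1 : i.val < j.val := hij
    have e2 : j.val < k.val := hjk
    have e3 : k.val < l.val := hkl
    rintro ⟨_, h⟩
    simp only [Equiv.ofBijective_apply] at h
    rw [f1 j (by omega), f1 l (by omega), join_adj] at h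
    have := (hc _ _).1 (h.2 _ _ rfl rfl)
    simp only at this
    omega

theorem cb2 : S_CB2 := by
  intro V _ G h
  rcases h with h | ⟨m, c, hc⟩
  · exact cb2_small G h
  · have hcard : Fintype.card V = m := by
      rw [← Fintype.card_congr c, Fintype.card_fin]
    by_cases hm : m ≤ 2
    · exact cb2_small G (by omega)
    · obtain ⟨M, rfl⟩ : ∃ M, m = M + 2 := ⟨m - 2, by omega⟩
      exact ⟨1, le_refl _, cb2_path G M c hc⟩

end Pool.Agent.W2helper11.DG
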